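import Pool.Agent.Lib_helper9.FPP.Defs

/-! # Block LOOP: basic facts on walks, loop erasure, translation, finiteness -/

set_option autoImplicit false

open scoped BigOperators

namespace Pool.Agent.Lib_helper9.FPP

theorem endpt_append {d : ℕ} (l₁ l₂ : List (Step d)) (x : Fin d → ℤ) :
    endpt x (l₁ ++ l₂) = endpt (endpt x l₁) l₂ := by
  induction l₁ generalizing x with
  | nil => rfl
  | cons s l ih => simp only [List.cons_append, endpt]; exact ih _

theorem walkEdges_append {d : ℕ} (n : ℕ) (l₁ l₂ : List (Step d)) (x : Fin d → ℤ) :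
    walkEdges n x (l₁ ++ l₂) = walkEdges n x l₁ ++ walkEdges n (endpt x l₁) l₂ := by
  induction l₁ generalizing x with
  | nil => rfl
  | cons s l ih => simp only [List.cons_append, walkEdges, endpt]; rw [ih]

theorem cost_append {d n : ℕ} (t : TEdge d n → ℝ) (l₁ l₂ : List (Step d)) (x : Fin d → ℤ) :
    cost t x (l₁ ++ l₂) = cost t x l₁ + cost t (endpt x l₁) l₂ := by
  unfold cost
  rw [walkEdges_append, List.map_append, List.sum_append]

theorem cost_nonneg' {d n : ℕ} (t : TEdge d n → ℝ) (ht : ∀ e, 0 ≤ t e) (x : Fin d → ℤ)
    (l : List (Step d)) : 0 ≤ cost t x l := by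
  unfold cost
  apply List.sum_nonneg
  intro a ha
  rw [List.mem_map] at ha
  obtain ⟨e, _, rfl⟩ := ha
  exact ht e

theorem endpt_add_proof {d : ℕ} (x v : Fin d → ℤ) (l : List (Step d)) :
    endpt (x + v) l = endpt x l + v := by
  induction l generalizing x with
  | nil => rfl
  | cons s l ih =>
    simp only [endpt]
    rw [← ih, add_right_comm]

theorem pos_add {d : ℕ} (x v : Fin d → ℤ) (l : List (Step d)) (j : ℕ) :
    pos (x + v) l j = pos x l j + v := endpt_add_proof x v _

theorem SAW_shift_proof {d : ℕ} (x v : Fin d → ℤ) (l : List (Step d)) :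
    SAW (x + v) l ↔ SAW x l := by
  unfold SAW
  simp only [pos_add, add_left_inj]

theorem edgeOf_shift {d : ℕ} (n : ℕ) (x v : Fin d → ℤ) (s : Step d) :
    edgeOf n (x + (n : ℤ) • v) s = edgeOf n x s := by
  unfold edgeOf
  refine Prod.ext ?_ rfl
  funext i
  unfold stepBase
  split
  · simp
  · simp

theorem walkEdges_shift_proof {d : ℕ} (n : ℕ) (x v : Fin d → ℤ) (l : List (Step d)) :
    walkEdges n (x + (n : ℤ) • v) l = walkEdges n x l := by
  induction l generalizing x with
  | nil => rfl
  | cons s l ih =>
    simp only [walkEdges]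
    rw [edgeOf_shift, add_right_comm, ih]

theorem cost_shift {d n : ℕ} (t : TEdge d n → ℝ) (x v : Fin d → ℤ) (l : List (Step d)) :
    cost t (x + (n : ℤ) • v) l = cost t x l := by
  unfold cost
  rw [walkEdges_shift_proof]

theorem pos_zero {d : ℕ} (x : Fin d → ℤ) (l : List (Step d)) : pos x l 0 = x := rfl

theorem pos_length {d : ℕ} (x : Fin d → ℤ) (l : List (Step d)) : pos x l l.length = endpt x l := by
  unfold pos
  rw [List.take_length]

theorem pos_of_length_le {d : ℕ} (x : Fin d → ℤ) (l : List (Step d)) (j : ℕ) (h : l.length ≤ j) :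
    pos x l j = endpt x l := by
  unfold pos
  rw [List.take_of_length_le h]

theorem pos_append_left {d : ℕ} (x : Fin d → ℤ) (l₁ l₂ : List (Step d)) (j : ℕ)
    (h : j ≤ l₁.length) : pos x (l₁ ++ l₂) j = pos x l₁ j := by
  unfold pos
  rw [List.take_append_of_le_length h]

theorem pos_append_right {d : ℕ} (x : Fin d → ℤ) (l₁ l₂ : List (Step d)) (j : ℕ) :
    pos x (l₁ ++ l₂) (l₁.length + j) = pos (endpt x l₁) l₂ j := by
  unfold pos
  rw [List.take_length_add_append, endpt_append]

theorem pos_take {d : ℕ} (x : Fin d → ℤ) (l : List (Step d)) (i j : ℕ) :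
    pos x (l.take i) j = pos x l (min j i) := by
  unfold pos
  rw [List.take_take]

theorem pos_drop {d : ℕ} (x : Fin d → ℤ) (l : List (Step d)) (i j : ℕ) :
    pos (pos x l i) (l.drop i) j = pos x l (i + j) := by
  unfold pos
  rw [← endpt_append, ← List.take_add]

theorem pos_succ {d : ℕ} (x : Fin d → ℤ) (l : List (Step d)) (j : ℕ) (h : j < l.length) :
    pos x l (j + 1) = pos x l j + stepVec l[j] := by
  unfold pos
  rw [List.take_succ_eq_append_getElem h, endpt_append]
  rfl

theorem stepVec_abs_le {d : ℕ} (s : Step d) (α : Fin d) : |stepVec s α| ≤ 1 := by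
  unfold stepVec
  split
  · by_cases h : α = s.1
    · subst h; simp
    · simp [Pi.single_eq_of_ne h]
  · by_cases h : α = s.1
    · subst h; simp
    · simp [Pi.single_eq_of_ne h]

theorem pos_succ_abs {d : ℕ} (x : Fin d → ℤ) (l : List (Step d)) (j : ℕ) (α : Fin d) :
    |pos x l (j + 1) α - pos x l j α| ≤ 1 := by
  by_cases h : j < l.length
  · rw [pos_succ x l j h]
    simpa using stepVec_abs_le l[j] α
  · rw [pos_of_length_le x l j (by omega), pos_of_length_le x l (j + 1) (by omega)]
    simp

/-- every traversed edge is based at a position of the walk -/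
theorem mem_walkEdges {d : ℕ} (n : ℕ) (l : List (Step d)) (x : Fin d → ℤ) (e : TEdge d n)
    (he : e ∈ walkEdges n x l) : ∃ (j : ℕ) (hj : j < l.length), ∃ k, (k = j ∨ k = j + 1) ∧
      e = ((fun α => ((pos x l k α : ℤ) : ZMod n)), l[j].1) ∧
      e = edgeOf n (pos x l j) l[j] := by
  induction l generalizing x with
  | nil => simp [walkEdges] at he
  | cons s l ih =>
    simp only [walkEdges, List.mem_cons] at he
    rcases he with he | he
    · refine ⟨0, by simp, if s.2 then 0 else 1, ?_, ?_, ?_⟩
      · split <;> simp
      · rw [he]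
        unfold edgeOf stepBase
        by_cases hs : s.2
        · simp [hs, pos, endpt]
        · simp [hs, pos, endpt]
      · rw [he]; rfl
    · obtain ⟨j, hj, k, hk, h1, h2⟩ := ih (x + stepVec s) he
      refine ⟨j + 1, by simpa using hj, k + 1, by omega, ?_, ?_⟩
      · rw [h1]
        simp [pos, endpt]
      · rw [h2]
        simp [pos, endpt]

/-- LOOP1 (loop erasure). -/
theorem loop_erase_proof {d n : ℕ} (t : TEdge d n → ℝ) (ht : ∀ e, 0 ≤ t e) (x : Fin d → ℤ)
    (l : List (Step d)) :
    ∃ l' : List (Step d), SAW x l' ∧ endpt x l' = endpt x l ∧ cost t x l' ≤ cost t x l := by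
  induction hN : l.length using Nat.strong_induction_on generalizing l with
  | _ N ih =>
    by_cases hs : SAW x l
    · exact ⟨l, hs, rfl, le_rfl⟩
    · unfold SAW at hs
      push Not at hs
      obtain ⟨i, j, hi, hj, hij, hne⟩ := hs
      wlog hlt : i < j generalizing i j
      · exact this j i hj hi hij.symm (Ne.symm hne) (by omega)
      have hend : endpt x (l.take i ++ l.drop j) = endpt x l := by
        rw [endpt_append]
        change endpt (pos x l i) (l.drop j) = _
        rw [hij]
        unfold pos
        rw [← endpt_append, List.take_append_drop]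
      have hcost : cost t x (l.take i ++ l.drop j) ≤ cost t x l := by
        rw [cost_append]
        change cost t x (l.take i) + cost t (pos x l i) (l.drop j) ≤ _
        rw [hij]
        have h1 : cost t x l = cost t x (l.take j) + cost t (pos x l j) (l.drop j) := by
          unfold pos
          rw [← cost_append, List.take_append_drop]
        have h2 : cost t x (l.take j) = cost t x (l.take i) +
            cost t (endpt x (l.take i)) ((l.drop i).take (j - i)) := by
          rw [← cost_append]
          congr 1
          rw [← List.take_add]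
          congr 1
          omega
        have h3 := cost_nonneg' t ht (endpt x (l.take i)) ((l.drop i).take (j - i))
        linarith
      obtain ⟨l', h1, h2, h3⟩ := ih (l.take i ++ l.drop j).length (by
        rw [List.length_append, List.length_take, List.length_drop]; omega) (l.take i ++ l.drop j) rfl
      exact ⟨l', h1, h2.trans hend, h3.trans hcost⟩

/-- LOOP3 (two-dimensional finiteness). -/
theorem finite_saw_proof (x : Fin 2 → ℤ) (r : ℕ) :
    {l : List (Step 2) | SAW x l ∧ ∀ j α, |pos x l j α - x α| ≤ (r : ℤ)}.Finite := by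
  have hfin : (Set.Icc (x - fun _ => (r : ℤ)) (x + fun _ => (r : ℤ))).Finite := Set.finite_Icc _ _
  set B := hfin.toFinset with hB
  refine (List.finite_length_le (Step 2) B.card).subset ?_
  rintro l ⟨hs, hb⟩
  change l.length ≤ B.card
  have hmaps : ∀ i ∈ Finset.range (l.length + 1), pos x l i ∈ B := by
    intro i _
    rw [hB, Set.Finite.mem_toFinset, Set.mem_Icc]
    constructor
    · intro α
      have := abs_le.1 (hb i α)
      simp only [Pi.sub_apply]; linarith [this.1]
    · intro α
      have := abs_le.1 (hb i α)
      simp only [Pi.add_apply]; linarith [this.2]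
  have hinj : Set.InjOn (fun i => pos x l i) (Finset.range (l.length + 1) : Set ℕ) := by
    intro i hi j hj hij
    rw [Finset.mem_coe, Finset.mem_range] at hi hj
    exact hs i j (by omega) (by omega) hij
  have := Finset.card_le_card_of_injOn (fun i => pos x l i) hmaps hinj
  rw [Finset.card_range] at this
  omega

end Pool.Agent.Lib_helper9.FPP
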