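import Pool.Agent.Lib_helper89.FPP.LOOP

/-! # Block CG: coarse graining of a walk at scale `u` -/

set_option autoImplicit false

open scoped BigOperators

namespace Pool.Agent.Lib_helper9.FPP

theorem SAW_take {d : ℕ} (x : Fin d → ℤ) (l : List (Step d)) (i : ℕ) (h : SAW x l) :
    SAW x (l.take i) := by
  intro a b ha hb hab
  rw [List.length_take] at ha hb
  rw [pos_take, pos_take] at hab
  have := h (min a i) (min b i) (by omega) (by omega) hab
  omega

theorem SAW_drop {d : ℕ} (x : Fin d → ℤ) (l : List (Step d)) (i : ℕ) (h : SAW x l)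
    (hi : i ≤ l.length) : SAW (pos x l i) (l.drop i) := by
  intro a b ha hb hab
  rw [List.length_drop] at ha hb
  rw [pos_drop, pos_drop] at hab
  have := h (i + a) (i + b) (by omega) (by omega) hab
  omega

/-- the cost of a walk is at least `b` times the number of its heavy steps -/
theorem heavy_mul_le_cost {d n : ℕ} (b : ℝ) (t : TEdge d n → ℝ) (ht : ∀ e, 0 ≤ t e)
    (x : Fin d → ℤ) (l : List (Step d)) :
    b * (heavyCount b t x l : ℝ) ≤ cost t x l := by
  unfold heavyCount cost
  generalize walkEdges n x l = L
  induction L with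
  | nil => simp
  | cons e L ih =>
    rw [List.map_cons, List.sum_cons, List.countP_cons]
    by_cases h : b ≤ t e
    · simp only [h, decide_true, if_true]
      push_cast
      linarith
    · simp only [h, decide_false, Bool.false_eq_true, if_false, add_zero]
      have := ht e
      linarith

theorem heavyCount_append {d n : ℕ} (b : ℝ) (t : TEdge d n → ℝ) (x : Fin d → ℤ)
    (l₁ l₂ : List (Step d)) :
    heavyCount b t x (l₁ ++ l₂) = heavyCount b t x l₁ + heavyCount b t (endpt x l₁) l₂ := by
  unfold heavyCount
  rw [walkEdges_append, List.countP_append]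

/-- CG. -/
theorem coarse_proof (n : ℕ) (x : Fin 2 → ℤ) (l : List (Step 2)) (u : ℕ) (hu : 1 ≤ u) :
    ∃ (p : ℕ → Fin 2 → ℤ) (m : ℕ), p 0 = x ∧ Lip u p ∧ (∀ j, m ≤ j → p j = p m) ∧
      (∀ e ∈ walkEdges n x l, ∃ j ≤ m, ∃ y : Fin 2 → ℤ, (∀ α, |y α - p j α| ≤ (u : ℤ)) ∧
        ∃ i : Fin 2, e = ((fun α => ((y α : ℤ) : ZMod n)), i)) ∧
      (∀ i, ∃ j ≤ m, ∀ α, |pos x l i α - p j α| ≤ (u : ℤ)) ∧
      (u = Nat.sqrt n → SAW x l → ∀ (b c : ℝ) (t : TEdge 2 n → ℝ), 0 ≤ b → 0 ≤ c →
        (∀ e, 0 ≤ t e) → t ∉ Bad n b c → (m : ℝ) * (b * c * u) ≤ cost t x l) := by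
  induction hN : l.length using Nat.strong_induction_on generalizing x l with
  | _ N ih =>
    by_cases hex : ∃ i, ∃ α, (u : ℤ) ≤ |pos x l i α - x α|
    · classical
      -- the first exit time
      obtain ⟨i₀, hi₀, hmin⟩ : ∃ i₀, (∃ α, (u : ℤ) ≤ |pos x l i₀ α - x α|) ∧
          ∀ i < i₀, ∀ α, |pos x l i α - x α| < (u : ℤ) := by
        refine ⟨Nat.find hex, Nat.find_spec hex, fun i hi α => ?_⟩
        have := Nat.find_min hex hi
        push Not at this
        exact this α
      have hi1 : 1 ≤ i₀ := by
        rcases Nat.eq_zero_or_pos i₀ with h | h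
        · subst h
          obtain ⟨α, hα⟩ := hi₀
          rw [pos_zero, sub_self, abs_zero] at hα
          have : (1 : ℤ) ≤ u := by exact_mod_cast hu
          omega
        · exact h
      have hlen : i₀ ≤ l.length := by
        by_contra hcon
        obtain ⟨α, hα⟩ := hi₀
        have h1 := hmin (i₀ - 1) (by omega) α
        rw [pos_of_length_le x l (i₀ - 1) (by omega)] at h1
        rw [pos_of_length_le x l i₀ (by omega)] at hα
        omega
      have hle : ∀ i ≤ i₀, ∀ α, |pos x l i α - x α| ≤ (u : ℤ) := by
        intro i hi α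
        rcases Nat.lt_or_ge i i₀ with h | h
        · exact (hmin i h α).le
        · have hii : i = i₀ := by omega
          subst hii
          have h1 := hmin (i - 1) (by omega) α
          have h2 := pos_succ_abs x l (i - 1) α
          rw [Nat.sub_add_cancel hi1] at h2
          rw [abs_lt] at h1
          rw [abs_le] at h2 ⊢
          constructor <;> omega
      obtain ⟨p', m', hp0, hlip, hconst, hedge, hpos, hcost⟩ :=
        ih (l.drop i₀).length (by rw [List.length_drop]; omega) (pos x l i₀) (l.drop i₀) rfl
      have hend : endpt x (l.take i₀) = pos x l i₀ := rfl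
      refine ⟨fun j => Nat.casesOn j x p', m' + 1, rfl, ?_, ?_, ?_, ?_, ?_⟩
      · intro j α
        cases j with
        | zero =>
          change |p' 0 α - x α| ≤ _
          rw [hp0]
          exact hle i₀ le_rfl α
        | succ j => exact hlip j α
      · intro j hj
        cases j with
        | zero => omega
        | succ j => exact hconst j (by omega)
      · intro e he
        have he' : e ∈ walkEdges n x (l.take i₀) ++ walkEdges n (endpt x (l.take i₀)) (l.drop i₀) := by
          rw [← walkEdges_append, List.take_append_drop]; exact he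
        rw [List.mem_append] at he'
        rcases he' with he' | he'
        · obtain ⟨j, hj, k, hk, hek, -⟩ := mem_walkEdges n _ _ e he'
          rw [List.length_take] at hj
          refine ⟨0, by omega, pos x (l.take i₀) k, ?_, _, hek⟩
          intro α
          rw [pos_take]
          exact hle _ (by omega) α
        · rw [hend] at he'
          obtain ⟨j, hj, y, hy, i, hi⟩ := hedge e he'
          exact ⟨j + 1, by omega, y, hy, i, hi⟩
      · intro i
        rcases Nat.le_total i i₀ with h | h
        · exact ⟨0, by omega, fun α => hle i h α⟩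
        · obtain ⟨j, hj, hj2⟩ := hpos (i - i₀)
          refine ⟨j + 1, by omega, fun α => ?_⟩
          have := hj2 α
          rw [pos_drop, Nat.add_sub_cancel' h] at this
          exact this
      · intro hun hs b c t hb hc ht hbad
        have h1 := hcost hun (SAW_drop x l i₀ hs hlen) b c t hb hc ht hbad
        have h2 : c * (u : ℝ) ≤ (heavyCount b t x (l.take i₀) : ℝ) := by
          by_contra hcon
          push Not at hcon
          apply hbad
          refine ⟨x, l.take i₀, SAW_take x l i₀ hs, ?_, ?_⟩
          · obtain ⟨α, hα⟩ := hi₀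
            refine ⟨α, ?_⟩
            rw [hend, ← hun]
            exact hα
          · rw [← hun]; exact hcon
        have h3 := heavy_mul_le_cost b t ht x (l.take i₀)
        have h4 : cost t x l = cost t x (l.take i₀) + cost t (pos x l i₀) (l.drop i₀) := by
          rw [← hend, ← cost_append, List.take_append_drop]
        have h5 : b * (c * (u : ℝ)) ≤ b * (heavyCount b t x (l.take i₀) : ℝ) :=
          mul_le_mul_of_nonneg_left h2 hb
        rw [h4]
        push_cast
        linarith
    · push Not at hex
      refine ⟨fun _ => x, 0, rfl, ?_, fun _ _ => rfl, ?_, ?_, ?_⟩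
      · intro j α
        simp
      · intro e he
        obtain ⟨j, hj, k, hk, hek, -⟩ := mem_walkEdges n _ _ e he
        exact ⟨0, le_rfl, pos x l k, fun α => (hex k α).le, _, hek⟩
      · intro i
        exact ⟨0, le_rfl, fun α => (hex i α).le⟩
      · intro _ _ b c t _ _ ht _
        simpa using cost_nonneg' t ht x l

end Pool.Agent.Lib_helper9.FPP
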